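import Mathlib

namespace Pool.Agent.Results.MP_f322fd_al.MixedChar

open IsLocalRing Polynomial

set_option linter.unusedSectionVars false

theorem red (f : ℤ[X]) : ∃ (a b : ℤ) (q : ℤ[X]), f = C a + C b * X + (X ^ 2 - 8) * q := by
  induction f using Polynomial.induction_on' with
  | add p q hp hq =>
    obtain ⟨a, b, u, rfl⟩ := hp
    obtain ⟨a', b', u', rfl⟩ := hq
    exact ⟨a + a', b + b', u + u', by simp only [map_add]; ring⟩
  | monomial n c =>
    induction n with
    | zero => exact ⟨c, 0, 0, by simp⟩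
    | succ n ih =>
      obtain ⟨a, b, u, h⟩ := ih
      refine ⟨8 * b, a, C b + X * u, ?_⟩
      rw [← Polynomial.monomial_mul_X, h]
      simp only [map_mul, map_ofNat]
      ring

theorem span_pair_le {A : Type} [CommRing A] (x y : A) :
    (Ideal.span {x, y} : Ideal A).spanFinrank ≤ 2 := by
  refine (Submodule.spanFinrank_span_le_ncard_of_finite (Set.toFinite _)).trans ?_
  exact (Set.ncard_insert_le _ _).trans (by simp)

theorem sqrt_lin (a b : ℤ) (h : (a : ℝ) + b * √2 = 0) : a = 0 ∧ b = 0 := by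
  by_cases hb : b = 0
  · subst hb
    simp at h
    exact ⟨h, rfl⟩
  · exfalso
    have hb' : (b : ℝ) ≠ 0 := by exact_mod_cast hb
    apply irrational_sqrt_two
    refine ⟨-(a : ℚ) / b, ?_⟩
    push_cast
    field_simp
    linarith

section abstract

variable {A : Type} [CommRing A] [IsRegularLocalRing A] [IsDomain A] (Y : A)

abbrev QB : Type := QuadraticAlgebra A (-2) (-Y)

variable {Y}

theorem unit_iff (hm : maximalIdeal A = Ideal.span {2, Y}) (x : QB Y) :
    IsUnit x ↔ x.re ∉ maximalIdeal A := by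
  rw [QuadraticAlgebra.isUnit_iff_norm_isUnit, QuadraticAlgebra.norm_def,
    ← notMem_maximalIdeal]
  have h2 : (2 : A) ∈ maximalIdeal A := hm ▸ Ideal.subset_span (by simp)
  have hY : Y ∈ maximalIdeal A := hm ▸ Ideal.subset_span (by simp)
  have key : -Y * x.re * x.im - -2 * x.im * x.im ∈ maximalIdeal A := by
    have e : -Y * x.re * x.im - -2 * x.im * x.im = Y * (-x.re * x.im) + 2 * (x.im * x.im) := by ring
    rw [e]
    exact add_mem (Ideal.mul_mem_right _ _ hY) (Ideal.mul_mem_right _ _ h2)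
  have e : x.re * x.re + -Y * x.re * x.im - -2 * x.im * x.im
      = x.re * x.re + (-Y * x.re * x.im - -2 * x.im * x.im) := by ring
  rw [e, not_iff_not, Ideal.add_mem_iff_left _ key]
  constructor
  · intro h
    exact ((maximalIdeal.isMaximal A).isPrime.mem_or_mem h).elim id id
  · intro h
    exact Ideal.mul_mem_right _ _ h

theorem localB (hm : maximalIdeal A = Ideal.span {2, Y}) : IsLocalRing (QB Y) := by
  apply IsLocalRing.of_nonunits_add
  intro a b ha hb
  rw [mem_nonunits_iff, unit_iff hm, not_not] at *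
  exact add_mem ha hb

theorem noethB : IsNoetherianRing (QB Y) := IsNoetherianRing.of_finite A (QB Y)

theorem decomp (x : QB Y) :
    x = algebraMap A (QB Y) x.re + algebraMap A (QB Y) x.im * QuadraticAlgebra.omega := by
  ext <;> simp [QuadraticAlgebra.algebraMap_eq]

theorem omega_sq : (QuadraticAlgebra.omega : QB Y) * QuadraticAlgebra.omega
    = -2 - algebraMap A (QB Y) Y * QuadraticAlgebra.omega := by
  ext <;> simp [QuadraticAlgebra.algebraMap_eq, QuadraticAlgebra.re_ofNat,
    QuadraticAlgebra.im_ofNat]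

theorem maxB (hm : maximalIdeal A = Ideal.span {2, Y}) [IsLocalRing (QB Y)] :
    maximalIdeal (QB Y) = Ideal.span {QuadraticAlgebra.omega, algebraMap A (QB Y) Y} := by
  apply le_antisymm
  · intro x hx
    rw [mem_maximalIdeal, mem_nonunits_iff, unit_iff hm, not_not, hm,
      Ideal.mem_span_pair] at hx
    obtain ⟨u, v, huv⟩ := hx
    rw [Ideal.mem_span_pair]
    refine ⟨algebraMap A (QB Y) x.im - algebraMap A (QB Y) u *
      (QuadraticAlgebra.omega + algebraMap A (QB Y) Y), algebraMap A (QB Y) v, ?_⟩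
    conv_rhs => rw [decomp x, ← huv]
    simp only [map_add, map_mul, map_ofNat]
    linear_combination (-(algebraMap A (QB Y) u)) * (omega_sq (Y := Y))
  · rw [Ideal.span_le]
    intro x hx
    simp only [Set.mem_insert_iff, Set.mem_singleton_iff] at hx
    rw [SetLike.mem_coe, mem_maximalIdeal, mem_nonunits_iff, unit_iff hm, not_not]
    rcases hx with rfl | rfl
    · simp
    · simp only [QuadraticAlgebra.algebraMap_re]
      exact hm ▸ Ideal.subset_span (by simp)

/-- the evaluation map to the reals -/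
noncomputable def chi (ψ : A →+* ℝ) (hψ : ψ Y = -2 * √2) : QB Y →+* ℝ where
  toFun x := ψ x.re + ψ x.im * √2
  map_one' := by simp [QuadraticAlgebra.re_one, QuadraticAlgebra.im_one]
  map_zero' := by simp
  map_add' x y := by simp; ring
  map_mul' x y := by
    have h : √2 * √2 = (2 : ℝ) := Real.mul_self_sqrt (by norm_num)
    simp only [QuadraticAlgebra.re_mul, QuadraticAlgebra.im_mul, map_add, map_mul, map_neg,
      map_ofNat, hψ]
    linear_combination (ψ x.im * ψ y.im) * h

theorem chi_alg (ψ : A →+* ℝ) (hψ : ψ Y = -2 * √2) (a : A) :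
    chi ψ hψ (algebraMap A (QB Y) a) = ψ a := by
  simp [chi]

theorem chi_omega (ψ : A →+* ℝ) (hψ : ψ Y = -2 * √2) :
    chi ψ hψ QuadraticAlgebra.omega = √2 := by
  simp [chi]

theorem g_sq : (2 * QuadraticAlgebra.omega + algebraMap A (QB Y) Y) ^ 2
    = algebraMap A (QB Y) (Y ^ 2 - 8) := by
  simp only [map_sub, map_pow, map_ofNat]
  linear_combination 4 * (omega_sq (Y := Y))

theorem chi_g (ψ : A →+* ℝ) (hψ : ψ Y = -2 * √2) :
    chi ψ hψ (2 * QuadraticAlgebra.omega + algebraMap A (QB Y) Y) = 0 := by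
  rw [map_add, map_mul, chi_omega, chi_alg, hψ, map_ofNat]
  ring

/-- reduction property -/
def Red (Y : A) : Prop := ∀ a : A, ∃ (a0 a1 s0 s1 : ℤ) (s q r : A), IsUnit s ∧ Odd s0 ∧
  s * a = a0 + a1 * Y + (Y ^ 2 - 8) * q ∧ s = s0 + s1 * Y + (Y ^ 2 - 8) * r

theorem ker_chi (ψ : A →+* ℝ) (hψ : ψ Y = -2 * √2) (hred : Red Y) :
    RingHom.ker (chi ψ hψ) = Ideal.span {2 * QuadraticAlgebra.omega + algebraMap A (QB Y) Y} := by
  apply le_antisymm
  · intro x hx
    rw [RingHom.mem_ker] at hx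
    obtain ⟨a0, a1, s0, s1, s, q, r, hs, -, h1, h2⟩ := hred x.re
    obtain ⟨b0, b1, t0, t1, t, q', r', ht, -, h3, h4⟩ := hred x.im
    set I : Ideal (QB Y) := Ideal.span {2 * QuadraticAlgebra.omega + algebraMap A (QB Y) Y}
      with hI
    have hg : 2 * QuadraticAlgebra.omega + algebraMap A (QB Y) Y ∈ I :=
      Ideal.subset_span (by simp)
    have hle : I ≤ RingHom.ker (chi ψ hψ) := by
      rw [hI, Ideal.span_le, Set.singleton_subset_iff]
      exact chi_g ψ hψ
    let π := Ideal.Quotient.mk I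
    have e1 : π (algebraMap A (QB Y) Y) = -2 * π QuadraticAlgebra.omega := by
      have := Ideal.Quotient.eq_zero_iff_mem.mpr hg
      rw [map_add, map_mul, map_ofNat] at this
      linear_combination this
    have e2 : π QuadraticAlgebra.omega * π QuadraticAlgebra.omega = 2 := by
      have := congrArg π (omega_sq (Y := Y))
      rw [map_mul, map_sub, map_mul, e1, map_neg, map_ofNat] at this
      linear_combination -this
    let ρ : A →+* (QB Y ⧸ I) := π.comp (algebraMap A (QB Y))
    have e3 : ρ Y = -2 * π QuadraticAlgebra.omega := e1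
    have e4 : ρ (Y ^ 2 - 8) = 0 := by
      rw [map_sub, map_pow, e3, map_ofNat]
      linear_combination 4 * e2
    have f1 := congrArg ρ h1
    have f2 := congrArg ρ h2
    have f3 := congrArg ρ h3
    have f4 := congrArg ρ h4
    simp only [map_add, map_mul, e4, e3, map_intCast, zero_mul, add_zero] at f1 f2 f3 f4
    have hx' : π x = ρ x.re + ρ x.im * π QuadraticAlgebra.omega := by
      conv_lhs => rw [decomp x]
      rw [map_add, map_mul]
      rfl
    have main : algebraMap A (QB Y) (s * t) * x -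
        (((t0 * a0 + 8 * t1 * a1 - 4 * s0 * b1 - 4 * s1 * b0 : ℤ) : QB Y) +
          ((-2 * t0 * a1 - 2 * t1 * a0 + s0 * b0 + 8 * s1 * b1 : ℤ) : QB Y) *
            QuadraticAlgebra.omega) ∈ I := by
      rw [← Ideal.Quotient.eq_zero_iff_mem]
      change π _ = 0
      rw [map_sub, map_mul, map_add, map_mul π (Int.cast _), map_intCast, map_intCast, hx']
      have : π (algebraMap A (QB Y) (s * t)) = ρ s * ρ t := map_mul ρ s t
      rw [this]
      push_cast
      set w := π QuadraticAlgebra.omega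
      linear_combination (ρ t) * f1 + (a0 + a1 * (-2 * w)) * f4 + (ρ s * w) * f3
        + ((b0 + b1 * (-2 * w)) * w) * f2
        + (4 * t1 * a1 - 2 * s0 * b1 - 2 * s1 * b0 + 4 * s1 * b1 * w) * e2
    have hz := hle main
    rw [RingHom.mem_ker, map_sub, map_mul, hx, mul_zero, zero_sub, neg_eq_zero, map_add, map_mul,
      map_intCast, map_intCast, chi_omega] at hz
    obtain ⟨z1, z2⟩ := sqrt_lin _ _ hz
    rw [z1, z2] at main
    simp only [Int.cast_zero, zero_mul, add_zero, sub_zero] at main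
    exact (Ideal.unit_mul_mem_iff_mem I ((hs.mul ht).map _)).mp main
  · rw [Ideal.span_le, Set.singleton_subset_iff]
    exact chi_g ψ hψ

theorem radical_eq (ψ : A →+* ℝ) (hψ : ψ Y = -2 * √2) (hred : Red Y) :
    ((RingHom.ker ψ).map (algebraMap A (QB Y))).radical = RingHom.ker (chi ψ hψ) := by
  apply le_antisymm
  · rw [(RingHom.ker_isPrime (chi ψ hψ)).radical_le_iff, Ideal.map_le_iff_le_comap]
    intro a ha
    rw [Ideal.mem_comap, RingHom.mem_ker, chi_alg]
    exact ha
  · rw [ker_chi ψ hψ hred, Ideal.span_le, Set.singleton_subset_iff]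
    refine ⟨2, ?_⟩
    rw [g_sq]
    apply Ideal.mem_map_of_mem
    have h : √2 * √2 = (2 : ℝ) := Real.mul_self_sqrt (by norm_num)
    rw [RingHom.mem_ker, map_sub, map_pow, hψ, map_ofNat]
    linear_combination 4 * h

theorem one_le_dim {S : Type} [CommRing S] [IsDomain S] [IsLocalRing S] (x : S) (hx : x ≠ 0)
    (hx' : x ∈ maximalIdeal S) : 1 ≤ ringKrullDim S := by
  unfold ringKrullDim
  rw [Order.one_le_krullDim_iff]
  refine ⟨⟨⊥, Ideal.isPrime_bot⟩, ⟨maximalIdeal S, inferInstance⟩, ?_⟩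
  change (⊥ : Ideal S) < maximalIdeal S
  rw [bot_lt_iff_ne_bot]
  intro h
  rw [h] at hx'
  exact hx hx'

theorem max_quot {S : Type} [CommRing S] [IsLocalRing S] (I : Ideal S) [IsLocalRing (S ⧸ I)] :
    maximalIdeal (S ⧸ I) = (maximalIdeal S).map (Ideal.Quotient.mk I) :=
  (IsLocalRing.map_maximalIdeal_of_surjective _ Ideal.Quotient.mk_surjective).symm

theorem quot_facts (hm : maximalIdeal A = Ideal.span {2, Y}) (ψ : A →+* ℝ)
    (hψ : ψ Y = -2 * √2) :
    IsRegularLocalRing (QB Y ⧸ RingHom.ker (chi ψ hψ)) ∧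
      1 ≤ ringKrullDim (QB Y ⧸ RingHom.ker (chi ψ hψ)) := by
  have := localB hm
  have := noethB (Y := Y)
  have hp := RingHom.ker_isPrime (chi ψ hψ)
  have : Nontrivial (QB Y ⧸ RingHom.ker (chi ψ hψ)) := inferInstance
  have : IsLocalRing (QB Y ⧸ RingHom.ker (chi ψ hψ)) :=
    IsLocalRing.of_surjective' (Ideal.Quotient.mk _) Ideal.Quotient.mk_surjective
  have hmax : maximalIdeal (QB Y ⧸ RingHom.ker (chi ψ hψ)) =
      Ideal.span {Ideal.Quotient.mk _ QuadraticAlgebra.omega} := by
    rw [max_quot, maxB hm, Ideal.map_span, Set.image_pair]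
    have hg : 2 * QuadraticAlgebra.omega + algebraMap A (QB Y) Y ∈ RingHom.ker (chi ψ hψ) :=
      chi_g ψ hψ
    have := Ideal.Quotient.eq_zero_iff_mem.mpr hg
    rw [map_add, map_mul, map_ofNat] at this
    apply le_antisymm
    · rw [Ideal.span_le]
      intro x hx
      simp only [Set.mem_insert_iff, Set.mem_singleton_iff] at hx
      rcases hx with rfl | rfl
      · exact Ideal.subset_span (by simp)
      · rw [SetLike.mem_coe, Ideal.mem_span_singleton']
        exact ⟨-2, by linear_combination -this⟩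
    · exact Ideal.span_mono (by simp)
  have hd : 1 ≤ ringKrullDim (QB Y ⧸ RingHom.ker (chi ψ hψ)) := by
    apply one_le_dim (Ideal.Quotient.mk _ QuadraticAlgebra.omega)
    · rw [Ne, Ideal.Quotient.eq_zero_iff_mem, RingHom.mem_ker, chi_omega]
      positivity
    · rw [hmax]
      exact Ideal.subset_span (by simp)
  refine ⟨IsRegularLocalRing.of_spanFinrank_maximalIdeal_le _ (le_trans ?_ hd), hd⟩
  rw [hmax]
  have := Submodule.spanFinrank_span_le_ncard_of_finite (R := QB Y ⧸ RingHom.ker (chi ψ hψ))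
    (Set.finite_singleton (Ideal.Quotient.mk (RingHom.ker (chi ψ hψ)) QuadraticAlgebra.omega))
  rw [Set.ncard_singleton] at this
  exact_mod_cast this

theorem regB (hm : maximalIdeal A = Ideal.span {2, Y}) (ψ : A →+* ℝ)
    (hψ : ψ Y = -2 * √2) (hred : Red Y) (hD : Y ^ 2 - 8 ≠ 0) : IsRegularLocalRing (QB Y) := by
  have := localB hm
  have := noethB (Y := Y)
  apply IsRegularLocalRing.of_spanFinrank_maximalIdeal_le
  have h1 := (quot_facts hm ψ hψ).2
  rw [ker_chi ψ hψ hred] at h1
  have hnz : 2 * QuadraticAlgebra.omega + algebraMap A (QB Y) Y ∈ nonZeroDivisors (QB Y) := by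
    have : (2 * QuadraticAlgebra.omega + algebraMap A (QB Y) Y) ^ 2 ∈ nonZeroDivisors (QB Y) := by
      rw [g_sq, QuadraticAlgebra.algebraMap_mem_nonZeroDivisors_iff]
      exact mem_nonZeroDivisors_of_ne_zero hD
    rw [sq] at this
    exact (mul_mem_nonZeroDivisors.mp this).1
  have h2 := ringKrullDim_quotient_succ_le_of_nonZeroDivisor hnz
  rw [maxB hm]
  have h3 := span_pair_le (QuadraticAlgebra.omega : QB Y) (algebraMap A (QB Y) Y)
  calc _ ≤ ((2 : ℕ) : WithBot ℕ∞) := by exact_mod_cast h3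
    _ = 1 + 1 := by norm_num
    _ ≤ _ := add_le_add_left h1 1
    _ ≤ _ := h2

theorem not_reg (hm : maximalIdeal A = Ideal.span {2, Y}) (ψ : A →+* ℝ)
    (hψ : ψ Y = -2 * √2) (hred : Red Y) (hD : Y ^ 2 - 8 ≠ 0) :
    ¬ IsRegularLocalRing (A ⧸ RingHom.ker ψ) := by
  intro hreg
  have hs : √2 * √2 = (2 : ℝ) := Real.mul_self_sqrt (by norm_num)
  have hDk : ψ (Y ^ 2 - 8) = 0 := by
    rw [map_sub, map_pow, hψ, map_ofNat]
    linear_combination 4 * hs
  have hp := RingHom.ker_isPrime ψ
  have d1 : ringKrullDim A ≤ 2 := by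
    refine (ringKrullDim_le_spanFinrank_maximalIdeal A).trans ?_
    rw [hm]
    exact_mod_cast span_pair_le (2 : A) Y
  have d2 := ringKrullDim_quotient_succ_le_of_nonZeroDivisor (mem_nonZeroDivisors_of_ne_zero hD)
  have hle : Ideal.span {Y ^ 2 - 8} ≤ RingHom.ker ψ := by
    rw [Ideal.span_le, Set.singleton_subset_iff]
    exact hDk
  have d3 : ringKrullDim (A ⧸ RingHom.ker ψ) ≤ ringKrullDim (A ⧸ Ideal.span {Y ^ 2 - 8}) :=
    ringKrullDim_le_of_surjective (Ideal.Quotient.factor hle) (Ideal.Quotient.factor_surjective hle)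
  have d4 := hreg.spanFinrank_maximalIdeal
  have d5 : (maximalIdeal (A ⧸ RingHom.ker ψ)).spanFinrank ≤ 1 := by
    have : (((maximalIdeal (A ⧸ RingHom.ker ψ)).spanFinrank + 1 : ℕ) : WithBot ℕ∞) ≤ (2 : ℕ) := by
      push_cast
      rw [d4]
      exact (add_le_add_left d3 1).trans (d2.trans d1)
    have : (maximalIdeal (A ⧸ RingHom.ker ψ)).spanFinrank + 1 ≤ 2 := by exact_mod_cast this
    omega
  have hprin : (maximalIdeal (A ⧸ RingHom.ker ψ)).IsPrincipal := by
    rcases Nat.le_one_iff_eq_zero_or_eq_one.mp d5 with h | h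
    · rw [(Submodule.spanFinrank_eq_zero_iff_eq_bot (IsNoetherian.noetherian _)).mp h]
      exact bot_isPrincipal
    · exact ((Submodule.spanFinrank_eq_one_iff _).mp h).1
  obtain ⟨c, hc⟩ := hprin
  obtain ⟨c, rfl⟩ := Ideal.Quotient.mk_surjective c
  rw [max_quot, hm, Ideal.map_span, Set.image_pair] at hc
  let κ := RingHom.kerLift ψ
  have hκ : ∀ a, κ (Ideal.Quotient.mk _ a) = ψ a := fun a => RingHom.kerLift_mk ψ a
  have m1 : Ideal.Quotient.mk (RingHom.ker ψ) 2 ∈
      Ideal.span {Ideal.Quotient.mk (RingHom.ker ψ) c} := by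
    change _ ∈ Submodule.span _ _
    rw [← hc]
    exact Ideal.subset_span (by simp)
  have m2 : Ideal.Quotient.mk (RingHom.ker ψ) Y ∈
      Ideal.span {Ideal.Quotient.mk (RingHom.ker ψ) c} := by
    change _ ∈ Submodule.span _ _
    rw [← hc]
    exact Ideal.subset_span (by simp)
  have m3 : Ideal.Quotient.mk (RingHom.ker ψ) c ∈ Ideal.span
      {Ideal.Quotient.mk (RingHom.ker ψ) 2, Ideal.Quotient.mk (RingHom.ker ψ) Y} := by
    rw [hc]
    exact Submodule.subset_span (by simp)
  rw [Ideal.mem_span_singleton'] at m1 m2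
  rw [Ideal.mem_span_pair] at m3
  obtain ⟨a, ha⟩ := m1
  obtain ⟨b, hb⟩ := m2
  obtain ⟨u, v, huv⟩ := m3
  obtain ⟨a, rfl⟩ := Ideal.Quotient.mk_surjective a
  obtain ⟨b, rfl⟩ := Ideal.Quotient.mk_surjective b
  obtain ⟨u, rfl⟩ := Ideal.Quotient.mk_surjective u
  obtain ⟨v, rfl⟩ := Ideal.Quotient.mk_surjective v
  have ha' := congrArg κ ha
  have hb' := congrArg κ hb
  have huv' := congrArg κ huv
  simp only [map_add, map_mul, hκ, hψ] at ha' hb' huv'
  rw [map_ofNat ψ 2] at ha' huv'
  have hc0 : ψ c ≠ 0 := by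
    intro h
    rw [h] at ha'
    norm_num at ha'
  have hone : ψ (u * a + v * b - 1) = 0 := by
    apply mul_left_cancel₀ hc0
    simp only [map_sub, map_add, map_mul, map_one]
    linear_combination (ψ u) * ha' + (ψ v) * hb' + huv'
  have hkm : RingHom.ker ψ ≤ maximalIdeal A := le_maximalIdeal hp.ne_top
  have hone' := hkm hone
  have hunit : IsUnit a ∨ IsUnit b := by
    by_contra hcon
    rw [not_or, ← notMem_maximalIdeal, ← notMem_maximalIdeal, not_not, not_not] at hcon
    have : u * a + v * b ∈ maximalIdeal A :=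
      add_mem (Ideal.mul_mem_left _ _ hcon.1) (Ideal.mul_mem_left _ _ hcon.2)
    have h1 := sub_mem this hone'
    simp only [sub_sub_cancel] at h1
    exact (maximalIdeal.isMaximal A).ne_top ((Ideal.eq_top_iff_one _).mpr h1)
  have key : ∀ z : A, ∃ a0 a1 s0 s1 : ℤ, Odd s0 ∧
      (s0 + s1 * (-2 * √2)) * ψ z = a0 + a1 * (-2 * √2) := by
    intro z
    obtain ⟨a0, a1, s0, s1, s, q, r, -, hodd, h1, h2⟩ := hred z
    have f1 := congrArg ψ h1
    have f2 := congrArg ψ h2
    simp only [map_add, map_mul, hDk, hψ, map_intCast, zero_mul, add_zero] at f1 f2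
    exact ⟨a0, a1, s0, s1, hodd, by rw [← f2, f1]⟩
  rcases hunit with h | h
  · obtain ⟨a', ha1⟩ := h.exists_right_inv
    obtain ⟨a0, a1, s0, s1, hodd, hk⟩ := key (b * a')
    have e : ψ (b * a') = -√2 := by
      have := congrArg ψ ha1
      rw [map_mul, map_one] at this
      rw [map_mul]
      linear_combination (-(ψ b * ψ a') / 2) * ha' + (1 / 2) * hb' + (ψ b * ψ c / 2) * this
    rw [e] at hk
    have := (sqrt_lin (4 * s1 - a0) (2 * a1 - s0) (by
      push_cast
      linear_combination hk - (2 * s1) * hs)).2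
    obtain ⟨k, hk⟩ := hodd
    omega
  · obtain ⟨b', hb1⟩ := h.exists_right_inv
    obtain ⟨a0, a1, s0, s1, hodd, hk⟩ := key (a * b')
    have e : ψ (a * b') * (-2 * √2) = 2 := by
      have := congrArg ψ hb1
      rw [map_mul, map_one] at this
      rw [map_mul]
      linear_combination (-(ψ a * ψ b')) * hb' + ha' + (ψ a * ψ c) * this
    have := (sqrt_lin (s0 - 4 * a1) (a0 - 2 * s1) (by
      push_cast
      linear_combination (-√2) * hk - ((s0 + s1 * (-2 * √2)) / 2) * e + (2 * a1) * hs)).1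
    obtain ⟨k, hk⟩ := hodd
    omega

end abstract

/-- reduction of integer polynomials: value at `0` modulo `2` -/
noncomputable def ev0 : ℤ[X] →+* ZMod 2 := (Int.castRingHom (ZMod 2)).comp (evalRingHom 0)

/-- the maximal ideal `(2, X)` -/
noncomputable def P0 : Ideal ℤ[X] := RingHom.ker ev0

instance : P0.IsPrime := RingHom.ker_isPrime ev0

theorem mem_P0 (f : ℤ[X]) : f ∈ P0 ↔ (2 : ℤ) ∣ f.eval 0 := by
  rw [P0, RingHom.mem_ker, ev0, RingHom.comp_apply, coe_evalRingHom, eq_intCast]
  exact_mod_cast ZMod.intCast_zmod_eq_zero_iff_dvd (f.eval 0) 2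

theorem P0_eq : P0 = Ideal.span {2, X} := by
  apply le_antisymm
  · intro f hf
    obtain ⟨k, hk⟩ := (mem_P0 f).mp hf
    rw [Ideal.mem_span_pair]
    refine ⟨C k, f.divX, ?_⟩
    conv_rhs => rw [← divX_mul_X_add f, coeff_zero_eq_eval_zero, hk]
    simp only [map_mul, map_ofNat]
    ring
  · rw [Ideal.span_le]
    intro x hx
    simp only [Set.mem_insert_iff, Set.mem_singleton_iff] at hx
    rw [SetLike.mem_coe, mem_P0]
    rcases hx with rfl | rfl <;> simp

abbrev A0 : Type := Localization.AtPrime P0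

noncomputable abbrev Y0 : A0 := algebraMap ℤ[X] A0 X

theorem inj0 : Function.Injective (algebraMap ℤ[X] A0) :=
  IsLocalization.injective A0 P0.primeCompl_le_nonZeroDivisors

theorem hm0 : maximalIdeal A0 = Ideal.span {2, Y0} := by
  rw [← Localization.AtPrime.map_eq_maximalIdeal]
  refine (congrArg (Ideal.map (algebraMap ℤ[X] A0)) P0_eq).trans ?_
  rw [Ideal.map_span, Set.image_pair, map_ofNat]

theorem red' (f : ℤ[X]) : ∃ (a b : ℤ) (q : ℤ[X]), f = C a + C b * X + (X ^ 2 - 8) * q ∧
    (f ∉ P0 → Odd a) := by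
  obtain ⟨a, b, q, h⟩ := red f
  refine ⟨a, b, q, h, fun hf => ?_⟩
  rw [mem_P0, h] at hf
  simp only [eval_add, eval_mul, eval_C, eval_X, eval_sub, eval_pow, eval_ofNat] at hf
  rw [← Int.not_even_iff_odd]
  rintro ⟨k, hk⟩
  exact hf ⟨k - 4 * eval 0 q, by rw [hk]; ring⟩

theorem red0 : Red Y0 := by
  intro z
  obtain ⟨⟨f, s⟩, h⟩ := IsLocalization.surj P0.primeCompl z
  obtain ⟨a0, a1, q, h1, -⟩ := red' f
  obtain ⟨s0, s1, r, h2, hodd⟩ := red' s
  refine ⟨a0, a1, s0, s1, algebraMap ℤ[X] A0 s, algebraMap ℤ[X] A0 q, algebraMap ℤ[X] A0 r,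
    IsLocalization.map_units A0 s, hodd s.2, ?_, ?_⟩
  · rw [mul_comm, h]
    conv_lhs => rw [h1]
    simp only [map_add, map_mul, map_sub, map_pow, map_ofNat, eq_intCast, map_intCast]
  · conv_lhs => rw [h2]
    simp only [map_add, map_mul, map_sub, map_pow, map_ofNat, eq_intCast, map_intCast]

/-- evaluation at `-2√2` -/
noncomputable def evR : ℤ[X] →+* ℝ := eval₂RingHom (Int.castRingHom ℝ) (-2 * √2)

theorem evR_unit (s : P0.primeCompl) : IsUnit (evR s) := by
  obtain ⟨s0, s1, r, h2, hodd⟩ := red' s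
  have hs : √2 * √2 = (2 : ℝ) := Real.mul_self_sqrt (by norm_num)
  rw [isUnit_iff_ne_zero]
  intro h
  rw [h2] at h
  have hX : evR X = -2 * √2 := by simp [evR]
  simp only [map_add, map_mul, map_sub, map_pow, map_ofNat, eq_intCast, map_intCast, hX] at h
  have := (sqrt_lin s0 (-2 * s1) (by
    push_cast
    linear_combination h - (4 * evR r) * hs)).1
  obtain ⟨k, hk⟩ := hodd s.2
  omega

/-- evaluation on the localization -/
noncomputable def psi0 : A0 →+* ℝ := IsLocalization.lift evR_unit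

theorem hpsi0 : psi0 Y0 = -2 * √2 := by
  rw [psi0, IsLocalization.lift_eq]
  simp [evR]

theorem hD0 : Y0 ^ 2 - 8 ≠ 0 := by
  have e : Y0 ^ 2 - 8 = algebraMap ℤ[X] A0 (X ^ 2 - 8) := by
    simp only [map_sub, map_pow, map_ofNat]
  rw [e, Ne, map_eq_zero_iff _ inj0]
  intro h
  have := congrArg (eval 0) h
  simp at this

theorem result : ∃ (A B : Type) (_ : CommRing A) (_ : CommRing B) (_ : IsRegularLocalRing A)
    (_ : IsRegularLocalRing B) (_ : CharZero A) (_ : CharZero B) (f : A →+* B) (p : Ideal A),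
    Function.Injective f ∧ f.Finite ∧ p.IsPrime ∧ CharZero (A ⧸ p) ∧
      IsRegularLocalRing (B ⧸ (p.map f).radical) ∧ ¬ IsRegularLocalRing (A ⧸ p) := by
  refine ⟨A0, QB Y0, inferInstance, inferInstance, inferInstance,
    regB hm0 psi0 hpsi0 red0 hD0, psi0.charZero, (chi psi0 hpsi0).charZero,
    algebraMap A0 (QB Y0), RingHom.ker psi0, QuadraticAlgebra.algebraMap_injective,
    RingHom.finite_algebraMap.mpr inferInstance, RingHom.ker_isPrime _,
    (RingHom.kerLift psi0).charZero, ?_, not_reg hm0 psi0 hpsi0 red0 hD0⟩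
  rw [radical_eq psi0 hpsi0 red0]
  exact (quot_facts hm0 psi0 hpsi0).1

end Pool.Agent.Results.MP_f322fd_al.MixedChar
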